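import Pool.Agent.KS6_60.UB.Geo

/-! Soundness and membership in `∃ℝ` for unit ball graphs in the three geometries. -/

namespace Pool.Agent.KS6_60.UB

open Pool.Agent.KS6_60.Lib.CX Pool.Agent.KS6_60.Lib.ER Pool.Agent.KS6_60.Lib.SG Filter Topology Module

set_option synthInstance.maxSize 4000

section sound
variable {N : Type} [DecidableEq N] {d m : ℕ}

theorem sound_hyp {r : ℝ} (hr : 0 < r) (I : Inst N) (h : UnitBall (hdist (d := d)) r (gr (vs I) (UB.r I))) :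
    SR (d + 1) I := by
  refine sound (V := Pt d) (by simp [add_comm]) (fun x y h => ?_) (fun x => x)
    (fun y => ⟨⟨fun v => -mk v y, fun v w => by simp [mk]; ring⟩, fun c v => by simp [mk]; ring⟩)
    (fun _ => Real.cosh (2 * r)) (fun x y _ _ => ?_) I ((hyp_iff hr _).1 h)
  · simp only [mk] at *; rwa [dotProduct_comm y.2 x.2, mul_comm y.1 x.1]
  · simp only [LinearMap.coe_mk, AddHom.coe_mk]
    rw [← sub_eq_add_neg, sub_nonneg]

theorem sound_sph {r : ℝ} (hr : 0 < r) (hr' : r < Real.pi / 2) (I : Inst N)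
    (h : UnitBall (sdist (d := d)) r (gr (vs I) (UB.r I))) : SR (d + 1) I := by
  refine sound (V := Pt d) (by simp [add_comm]) (fun x y h => ?_) (fun x => x)
    (fun y => ⟨⟨fun v => v.1 * y.1 + v.2 ⬝ᵥ y.2, fun v w => by simp; ring⟩, fun c v => by simp; ring⟩)
    (fun _ => -Real.cos (2 * r)) (fun x y _ _ => ?_) I ((sph_iff hr hr' _).1 h)
  · rwa [dotProduct_comm y.2 x.2, mul_comm y.1 x.1]
  · simp only [LinearMap.coe_mk, AddHom.coe_mk]
    rw [neg_add_eq_sub, sub_nonneg]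

theorem sound_euc {r : ℝ} (hr : 0 < r) (I : Inst N) (h : UnitBall (edist' (d := m + 1)) r (gr (vs I) (UB.r I))) :
    SR (m + 2) I := by
  refine sound (V := ℝ × Pt m) (by simp; omega) (fun x y h => ?_) (fun x => (1, x))
    (fun y => ⟨⟨fun v => -(y.1 * y.1 + y.2 ⬝ᵥ y.2) * v.1 + 2 * (v.2.1 * y.1 + v.2.2 ⬝ᵥ y.2),
      fun v w => by simp; ring⟩, fun c v => by simp; ring⟩)
    (fun x => (2 * r) ^ 2 - (x.1 * x.1 + x.2 ⬝ᵥ x.2)) (fun x y _ _ => ?_) I ((euc_iff hr _).1 h)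
  · rw [dotProduct_comm y.2 x.2, mul_comm y.1 x.1]; linarith
  · simp only [LinearMap.coe_mk, AddHom.coe_mk]
    constructor <;> intro q <;> linarith

end sound

/-- replace all variables by the variable `0` -/
def z0 : Tm → Tm
  | .var _ => .var 0
  | .num c => .num c
  | .add s t => .add (z0 s) (z0 t)
  | .mul s t => .mul (z0 s) (z0 t)

theorem z0_eval (x : ℕ → ℝ) (s : Tm) : (z0 s).eval x = s.eval fun _ => x 0 := by
  induction s with
  | var i => rfl
  | num c => rfl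
  | add s t h1 h2 => simp only [z0, Tm.eval, h1, h2]
  | mul s t h1 h2 => simp only [z0, Tm.eval, h1, h2]

/-- replace all variables by the variable `0` -/
def y0 : Fm → Fm
  | .eq s t => .eq (z0 s) (z0 t)
  | .lt s t => .lt (z0 s) (z0 t)
  | .le s t => .le (z0 s) (z0 t)
  | .not f => .not (y0 f)
  | .and f g => .and (y0 f) (y0 g)
  | .or f g => .or (y0 f) (y0 g)

theorem y0_holds (x : ℕ → ℝ) (f : Fm) : (y0 f).Holds x ↔ f.Holds fun _ => x 0 := by
  induction f with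
  | eq s t => simp only [y0, Fm.Holds, z0_eval]
  | lt s t => simp only [y0, Fm.Holds, z0_eval]
  | le s t => simp only [y0, Fm.Holds, z0_eval]
  | not f h => simp only [y0, Fm.Holds, h]
  | and f g h1 h2 => simp only [y0, Fm.Holds, h1, h2]
  | or f g h1 h2 => simp only [y0, Fm.Holds, h1, h2]

theorem Red.of_iff {α β : Type} [Enc α] [Enc β] {A A' : α → Prop} {B : β → Prop} (h : Red A B)
    (e : ∀ a, A' a ↔ A a) : Red A' B := by
  obtain ⟨f, hf, k⟩ := h
  exact ⟨f, hf, fun a => (e a).trans (k a)⟩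

theorem memb_hyp (d : ℕ) (χ : Fm) : Red (fun a => ∃ r : ℝ, 0 < r ∧ (χ.Holds fun _ => Real.cosh (2 * r)) ∧
    UnitBall (hdist (d := d)) r a) ETR := by
  have := rep_memb (d := d) (Q := fun K => 1 < K ∧ χ.Holds fun _ => K) (P := fun x : Pt d => mk x x = 1 ∧ 0 < x.1)
    (R := fun K x y => mk x y ≤ K) (χ := .and (.lt (.num 1) (.var 0)) (y0 χ))
    (ψ := fun u => .and (.eq (.mul (.var (1 + (d + 1) * u)) (.var (1 + (d + 1) * u)))
      (.add (.num 1) (dt (2 + (d + 1) * u) (2 + (d + 1) * u) d))) (.lt (.num 0) (.var (1 + (d + 1) * u))))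
    (φ := fun e => .le (.mul (.var (1 + (d + 1) * e.1)) (.var (1 + (d + 1) * e.2)))
      (.add (.var 0) (dt (2 + (d + 1) * e.1) (2 + (d + 1) * e.2) d)))
    (pt_and (pt_eq (by fun_prop) (pt_add (PT.const _) (pt_dt (by fun_prop) (by fun_prop) d))) (by fun_prop))
    (pt_le (by fun_prop) (pt_add (PT.const _) (pt_dt (by fun_prop) (by fun_prop) d)))
    (fun x => by simp only [Fm.Holds, y0_holds, Tm.eval, Int.cast_one])
    (fun x u => by simp [Fm.Holds, Tm.eval, dt_eval, mk, pt, sub_eq_iff_eq_add])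
    (fun x u v => by simp [Fm.Holds, Tm.eval, dt_eval, mk, pt])
  refine Red.of_iff this fun a => ⟨fun ⟨r, hr, h, k⟩ => ⟨_, ⟨Real.one_lt_cosh.2 (by linarith), h⟩,
    (hyp_iff hr a).1 k⟩, fun ⟨K, ⟨h1, h2⟩, k⟩ => ?_⟩
  have hp := Real.arcosh_pos h1
  have e : Real.cosh (2 * (Real.arcosh K / 2)) = K := by rw [mul_div_cancel₀ _ two_ne_zero, Real.cosh_arcosh h1.le]
  exact ⟨Real.arcosh K / 2, by linarith, by rw [e]; exact h2, (hyp_iff (by linarith) a).2 (by rw [e]; exact k)⟩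

theorem memb_sph (d : ℕ) (χ : Fm) : Red (fun a => ∃ r : ℝ, 0 < r ∧ r < Real.pi / 2 ∧
    (χ.Holds fun _ => Real.cos (2 * r)) ∧ UnitBall (sdist (d := d)) r a) ETR := by
  have := rep_memb (d := d) (Q := fun K => (K < 1 ∧ 0 < 1 + K) ∧ χ.Holds fun _ => K)
    (P := fun x : Pt d => x.1 * x.1 + x.2 ⬝ᵥ x.2 = 1)
    (R := fun K x y => K ≤ x.1 * y.1 + x.2 ⬝ᵥ y.2)
    (χ := .and (.and (.lt (.var 0) (.num 1)) (.lt (.num 0) (.add (.num 1) (.var 0)))) (y0 χ))
    (ψ := fun u => .eq (.add (.mul (.var (1 + (d + 1) * u)) (.var (1 + (d + 1) * u)))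
      (dt (2 + (d + 1) * u) (2 + (d + 1) * u) d)) (.num 1))
    (φ := fun e => .le (.var 0) (.add (.mul (.var (1 + (d + 1) * e.1)) (.var (1 + (d + 1) * e.2)))
      (dt (2 + (d + 1) * e.1) (2 + (d + 1) * e.2) d)))
    (pt_eq (pt_add (by fun_prop) (pt_dt (by fun_prop) (by fun_prop) d)) (PT.const _))
    (pt_le (PT.const _) (pt_add (by fun_prop) (pt_dt (by fun_prop) (by fun_prop) d)))
    (fun x => by simp only [Fm.Holds, y0_holds, Tm.eval, Int.cast_one, Int.cast_zero])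
    (fun x u => by simp [Fm.Holds, Tm.eval, dt_eval, pt])
    (fun x u v => by simp [Fm.Holds, Tm.eval, dt_eval, pt])
  refine Red.of_iff this fun a => ⟨fun ⟨r, hr, hr', h, k⟩ => ⟨_, ⟨⟨?_, ?_⟩, h⟩,
    (sph_iff hr hr' a).1 k⟩, fun ⟨K, ⟨⟨h1, h1'⟩, h2⟩, k⟩ => ?_⟩
  · rw [← Real.cos_zero]
    exact Real.strictAntiOn_cos ⟨le_rfl, Real.pi_pos.le⟩ ⟨by linarith, by linarith⟩ (by linarith)
  · have := Real.strictAntiOn_cos ⟨by linarith, by linarith⟩ ⟨Real.pi_pos.le, le_rfl⟩ (show 2 * r < Real.pi by linarith)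
    rw [Real.cos_pi] at this
    linarith
  have e : Real.cos (2 * (Real.arccos K / 2)) = K := by
    rw [mul_div_cancel₀ _ two_ne_zero, Real.cos_arccos (by linarith) h1.le]
  have b1 : 0 < Real.arccos K := Real.arccos_pos.2 h1
  have b2 : Real.arccos K < Real.pi := lt_of_le_of_ne (Real.arccos_le_pi K) fun q => by
    have := Real.arccos_eq_pi.1 q
    linarith
  exact ⟨Real.arccos K / 2, by linarith, by linarith, by rw [e]; exact h2,
    (sph_iff (by linarith) (by linarith) a).2 (by rw [e]; exact k)⟩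

theorem euc_scale {d : ℕ} {r s : ℝ} (hr : 0 < r) (hs : 0 < s) {a : Gr} (h : UnitBall (edist' (d := d)) r a) :
    UnitBall (edist' (d := d)) s a := by
  obtain ⟨c, h⟩ := h
  refine ⟨fun u => (s / r) • c u, fun u v t => (h u v t).trans ?_⟩
  rw [edist', edist', dist_smul₀, Real.norm_of_nonneg (by positivity), div_mul_eq_mul_div, div_le_iff₀ hr]
  constructor <;> intro q <;> nlinarith

theorem memb_euc (m : ℕ) {r : ℝ} (hr : 0 < r) : Red (UnitBall (edist' (d := m + 1)) r) ETR := by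
  have := rep_memb (d := m) (Q := fun K => 0 < K) (P := fun _ : Pt m => True)
    (R := fun K x y => x.1 * x.1 + x.2 ⬝ᵥ x.2 + (y.1 * y.1 + y.2 ⬝ᵥ y.2) ≤
      K + 2 * (x.1 * y.1 + x.2 ⬝ᵥ y.2)) (χ := .lt (.num 0) (.var 0))
    (ψ := fun _ => .eq (.num 0) (.num 0))
    (φ := fun e => .le (.add (.add (.mul (.var (1 + (m + 1) * e.1)) (.var (1 + (m + 1) * e.1)))
        (dt (2 + (m + 1) * e.1) (2 + (m + 1) * e.1) m))
        (.add (.mul (.var (1 + (m + 1) * e.2)) (.var (1 + (m + 1) * e.2)))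
        (dt (2 + (m + 1) * e.2) (2 + (m + 1) * e.2) m)))
      (.add (.var 0) (.mul (.num 2) (.add (.mul (.var (1 + (m + 1) * e.1)) (.var (1 + (m + 1) * e.2)))
        (dt (2 + (m + 1) * e.1) (2 + (m + 1) * e.2) m)))))
    (PT.const _)
    (pt_le (pt_add (pt_add (by fun_prop) (pt_dt (by fun_prop) (by fun_prop) m))
      (pt_add (by fun_prop) (pt_dt (by fun_prop) (by fun_prop) m)))
      (pt_add (PT.const _) (pt_mul (PT.const _) (pt_add (by fun_prop) (pt_dt (by fun_prop) (by fun_prop) m)))))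
    (fun x => by simp [Fm.Holds, Tm.eval])
    (fun x u => by simp [Fm.Holds, Tm.eval])
    (fun x u v => by simp [Fm.Holds, Tm.eval, dt_eval, pt])
  have k : ∀ (s : ℝ), 0 < s → ∀ a, UnitBall (edist' (d := m + 1)) s a ↔ Rep (fun _ : Pt m => True) (fun x y =>
      x.1 * x.1 + x.2 ⬝ᵥ x.2 + (y.1 * y.1 + y.2 ⬝ᵥ y.2) ≤ (2 * s) ^ 2 + 2 * (x.1 * y.1 + x.2 ⬝ᵥ y.2)) a := fun s hs a => by
    rw [euc_iff hs]
    simp only [tsub_le_iff_right]
  refine Red.of_iff this fun a => ⟨fun h => ⟨_, by positivity, (k r hr a).1 h⟩, fun ⟨K, h1, h2⟩ => ?_⟩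
  have e : (2 * (√K / 2)) ^ 2 = K := by rw [mul_div_cancel₀ _ two_ne_zero, Real.sq_sqrt h1.le]
  have p := Real.sqrt_pos.2 h1
  exact euc_scale (r := √K / 2) (by linarith) hr ((k _ (by linarith) a).2 (by rw [e]; exact h2))

end Pool.Agent.KS6_60.UB
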