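import Pool.Agent.KS6_60.Lib.Sg5

/-! Unit ball graphs of fixed radius in the three kinds of space forms: a common reduction. -/

namespace Pool.Agent.KS6_60.UB

open Pool.Agent.KS6_60.Lib.CX Pool.Agent.KS6_60.Lib.ER Pool.Agent.KS6_60.Lib.SG Filter Topology Module

set_option synthInstance.maxSize 4000

variable {N : Type} [DecidableEq N]

/-- the vertices: one for every point, two for every hyperplane -/
def vs (I : Inst N) : List (ℕ × N) := (I.1.map fun i => (0, i)) ++ [1, 2] ×ˢ I.2.1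

/-- adjacency -/
def r (I : Inst N) (u v : ℕ × N) : Bool :=
  decide (u.1 = v.1 ∨ u.1 = 0 ∧ (v.1 = 1 ↔ (u.2, v.2) ∈ I.2.2))

theorem pt_red [Enc N] : PT fun I : Inst N => gr (vs I) (r I) := by unfold gr vs r; fun_prop

theorem mem_vs {I : Inst N} {t i} : (t, i) ∈ vs I ↔ t = 0 ∧ i ∈ I.1 ∨ (t = 1 ∨ t = 2) ∧ i ∈ I.2.1 := by
  simp [vs, and_comm, eq_comm, and_or_left]

theorem rep_iff {X : Type} [Inhabited X] {P : X → Prop} {R : X → X → Prop} (hR : ∀ x y, R x y → R y x) (I : Inst N) :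
    Rep P R (gr (vs I) (r I)) ↔ ∃ c : ℕ × N → X, (∀ u ∈ vs I, P (c u)) ∧
      ∀ u ∈ vs I, ∀ v ∈ vs I, u.1 ≤ v.1 → u ≠ v → (r I u v ↔ R (c u) (c v)) :=
  rep_gr (fun u v h => by simp [r, h]) hR

/-- Soundness: if the adjacency condition `R x y` says that `q x y` is at most (or at least) a constant, where
`q x` is a linear functional up to a constant depending on `x` -/
theorem sound {X V : Type} [Inhabited X] [AddCommGroup V] [Module ℝ V] [Module.Finite ℝ V] {d : ℕ} (hV : finrank ℝ V ≤ d + 1)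
    {P : X → Prop} {R : X → X → Prop} (hR : ∀ x y, R x y → R y x) (ι : X → V) (ℓ : X → V →ₗ[ℝ] ℝ) (a : X → ℝ)
    (hℓ : ∀ x y, P x → P y → (R x y ↔ 0 ≤ a x + ℓ y (ι x))) (I : Inst N) (h : Rep P R (gr (vs I) (r I))) : SR (d + 1) I := by
  obtain ⟨c, h0, h⟩ := (rep_iff hR I).1 h
  refine ⟨V, inferInstance, inferInstance, inferInstance, hV, fun i => ι (c (0, i)),
    fun j => ℓ (c (1, j)) - ℓ (c (2, j)), fun i hi j hj => ?_⟩
  have m0 : ((0, i) : ℕ × N) ∈ vs I := mem_vs.2 (by simp [hi])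
  have m1 : ((1, j) : ℕ × N) ∈ vs I := mem_vs.2 (by simp [hj])
  have m2 : ((2, j) : ℕ × N) ∈ vs I := mem_vs.2 (by simp [hj])
  have a1 := h _ m0 _ m1 (by simp) (by simp)
  have a2 := h _ m0 _ m2 (by simp) (by simp)
  rw [hℓ _ _ (h0 _ m0) (h0 _ m1)] at a1
  rw [hℓ _ _ (h0 _ m0) (h0 _ m2)] at a2
  simp [r] at a1 a2
  exact ⟨fun q => by simp [q] at a1 a2 ⊢; linarith, fun q => by simp [q] at a1 a2 ⊢; linarith⟩

/-- the function whose sign decides adjacency in conformal coordinates, for curvature `κ` -/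
def F {m} (κ t : ℝ) (x y : Pt m) : ℝ := t * (1 + κ * (x.1 * x.1 + x.2 ⬝ᵥ x.2)) * (1 + κ * (y.1 * y.1 + y.2 ⬝ᵥ y.2)) -
  (x.1 * x.1 + x.2 ⬝ᵥ x.2 + (y.1 * y.1 + y.2 ⬝ᵥ y.2) - 2 * (x.1 * y.1 + x.2 ⬝ᵥ y.2))

/-- Completeness in conformal coordinates. -/
theorem complete {m} {κ t : ℝ} (ht : 0 < t) (hw : 1 / 4 < 1 - κ * t) (I : Inst N) (h : NF m I) :
    ∃ c : ℕ × N → Pt m, (∀ u ∈ vs I, 0 < 1 + κ * ((c u).1 * (c u).1 + (c u).2 ⬝ᵥ (c u).2)) ∧
      ∀ u ∈ vs I, ∀ v ∈ vs I, u.1 ≤ v.1 → S (r I u v) (F κ t (c u) (c v)) := by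
  obtain ⟨α, β, y, z, h⟩ := h
  obtain ⟨w, hwe⟩ : ∃ w, w = 1 - κ * t := ⟨_, rfl⟩
  rw [← hwe] at hw
  have w0 : 0 < w := by linarith
  obtain ⟨τ, τ0, hτ⟩ : ∃ τ : ℝ, 0 < τ ∧ τ * τ = t / w :=
    ⟨√(t / w), Real.sqrt_pos.2 (by positivity), Real.mul_self_sqrt (by positivity)⟩
  have hτw : w * (τ * τ) = t := by rw [hτ]; field_simp
  have hκ : w * (1 + κ * (τ * τ)) = 1 := by
    have : w * (1 + κ * (τ * τ)) = w + κ * (w * (τ * τ)) := by ring
    rw [this, hτw, hwe]; ring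
  have hκ0 : 0 < 1 + κ * (τ * τ) := by
    by_contra q
    have := mul_nonpos_of_nonneg_of_nonpos w0.le (not_lt.1 q)
    linarith
  have f1 : τ * τ + τ * τ - 2 * (τ * τ) < t * (1 + κ * (τ * τ)) * (1 + κ * (τ * τ)) := by
    have : 0 < t * (1 + κ * (τ * τ)) * (1 + κ * (τ * τ)) := by positivity
    linarith
  have f2 : t * (1 + κ * (τ * τ)) * (1 + κ * (τ * τ)) < τ * τ + τ * τ + 2 * (τ * τ) := by
    have e1 : t * (1 + κ * (τ * τ)) * (1 + κ * (τ * τ)) = (τ * τ) * (1 + κ * (τ * τ)) := by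
      linear_combination (τ * τ) * (1 + κ * (τ * τ)) * hκ - (1 + κ * (τ * τ)) * (1 + κ * (τ * τ)) * hτw
    have e2 : 1 + κ * (τ * τ) < 4 := by
      by_contra q
      have : 4 * w ≤ w * (1 + κ * (τ * τ)) := by nlinarith
      linarith
    rw [e1]
    nlinarith [mul_pos τ0 τ0]
  let c : ℝ → ℕ × N → Pt m := fun ε u => if u.1 = 0 then (ε ^ 3 * (α u.2 / τ), (ε ^ 2) • y u.2) else
    ((if u.1 = 1 then 1 else -1) * (τ - ε ^ 2 * (z u.2 ⬝ᵥ z u.2 / (2 * τ))) - ε ^ 3 * (β u.2 / (w * τ)),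
      ((if u.1 = 1 then 1 else -1) * ε) • z u.2)
  have e0 : ∀ (b : Prop) (g : ℝ → ℝ), Continuous g → S b (g 0) → ∀ᶠ ε in 𝓝[>] (0 : ℝ), S b (g ε) := fun b g a c => by
    simpa using ev_S a c 0
  have a : ∀ᶠ ε in 𝓝[>] (0 : ℝ), ∀ u ∈ vs I, 0 < 1 + κ * ((c ε u).1 * (c ε u).1 + (c ε u).2 ⬝ᵥ (c ε u).2) :=
    ev_all _ fun ⟨t, i⟩ hu => by
      have : ∀ g : ℝ → ℝ, Continuous g → 0 < g 0 → ∀ᶠ ε in 𝓝[>] (0 : ℝ), 0 < g ε := fun g a b => by
        simpa using e0 True g a (by simpa using b)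
      rcases mem_vs.1 hu with ⟨rfl, -⟩ | ⟨rfl | rfl, -⟩ <;>
        simp only [c, if_true, if_false, one_ne_zero, OfNat.ofNat_ne_zero, OfNat.ofNat_ne_one, smul_dotProduct,
          dotProduct_smul, smul_eq_mul] <;> refine this _ (by fun_prop) ?_ <;> simp [hκ0]
  have b : ∀ᶠ ε in 𝓝[>] (0 : ℝ), ∀ u ∈ vs I, ∀ v ∈ vs I, u.1 ≤ v.1 → S (r I u v) (F κ t (c ε u) (c ε v)) :=
    ev_all _ fun ⟨t', i⟩ hu => ev_all _ fun ⟨s, j⟩ hv => by
      have e3 : ∀ e : ℝ, e * e = 1 → ∀ b : Prop, S b (e * (α i + β j + y i ⬝ᵥ z j)) → ∀ᶠ ε in 𝓝[>] (0 : ℝ),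
          S b (F κ t (ε ^ 3 * (α i / τ), (ε ^ 2) • y i)
            (e * (τ - ε ^ 2 * (z j ⬝ᵥ z j / (2 * τ))) - ε ^ 3 * (β j / (w * τ)), (e * ε) • z j)) := fun e he b q => by
        simp only [F, smul_dotProduct, dotProduct_smul, smul_eq_mul]
        generalize y i ⬝ᵥ z j = P, y i ⬝ᵥ y i = Y, z j ⬝ᵥ z j = Z, α i = A, β j = B at *
        obtain ⟨Z', hZ'⟩ : ∃ Z', Z = 2 * τ * Z' := ⟨Z / (2 * τ), by field_simp⟩
        have hZ2 : Z / (2 * τ) = Z' := by rw [hZ']; field_simp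
        rw [hZ2, hZ']
        obtain ⟨B', hB'⟩ : ∃ B', B' = B / (w * τ) := ⟨_, rfl⟩
        obtain ⟨A', hA'⟩ : ∃ A', A' = A / τ := ⟨_, rfl⟩
        rw [← hA', ← hB']
        have h3 : κ * t = 1 - w := by rw [hwe]; ring
        refine (ev_S (b := b) (g := fun ε => -w * (ε * Z' ^ 2 - 2 * e * (τ - ε ^ 2 * Z') * B' + ε ^ 3 * B' ^ 2) +
            ε * (ε ^ 2 * A' ^ 2 + Y) * (-w + κ ^ 2 * t * (τ * τ + ε ^ 3 * (ε * Z' ^ 2 -
            2 * e * (τ - ε ^ 2 * Z') * B' + ε ^ 3 * B' ^ 2))) +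
            2 * (A' * (e * (τ - ε ^ 2 * Z') - ε ^ 3 * B') + e * P)) (by fun_prop) ?_ 3).mono
            fun ε k => ?_
        · have := q.mul two_pos
          convert this using 1
          rw [hA', hB']
          field_simp
          ring
        · convert k using 1
          rcases mul_self_eq_one_iff.1 he with rfl | rfl
          · linear_combination -hτw + ((ε ^ 3 * A') ^ 2 + ε ^ 4 * Y + (τ - ε ^ 2 * Z' - ε ^ 3 * B') ^ 2 +
              ε ^ 2 * (2 * τ * Z')) * h3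
          · linear_combination -hτw + ((ε ^ 3 * A') ^ 2 + ε ^ 4 * Y + (-(τ - ε ^ 2 * Z') - ε ^ 3 * B') ^ 2 +
              ε ^ 2 * (2 * τ * Z')) * h3
      rcases mem_vs.1 hu with ⟨rfl, hi⟩ | ⟨rfl | rfl, hi⟩ <;> rcases mem_vs.1 hv with ⟨rfl, hj⟩ | ⟨rfl | rfl, hj⟩ <;>
        simp only [c, if_true, if_false, one_ne_zero, OfNat.ofNat_ne_zero, OfNat.ofNat_ne_one, r, le_refl, forall_true_left,
          Nat.reduceLeDiff, zero_le, false_imp_iff, eventually_true, decide_eq_true_eq, Nat.reduceEqDiff, true_or, false_or,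
          true_and, false_and, true_iff, false_iff, nonpos_iff_eq_zero]
      rotate_left
      · exact e3 1 (by simp) _ (by simpa using h i hi j hj)
      · exact e3 (-1) (by simp) _ ⟨fun q => by linarith [(h i hi j hj).2 q], fun q => by
          linarith [(h i hi j hj).1 (not_not.1 q)]⟩
      all_goals
        simp only [F, smul_dotProduct, dotProduct_smul, smul_eq_mul]
        refine e0 _ _ (by fun_prop) ?_
      · simpa using f1
      · simpa using f2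
      · simpa using f1
      · simpa using ht
  obtain ⟨ε, a, b⟩ := (a.and b).exists
  exact ⟨c ε, a, b⟩

end Pool.Agent.KS6_60.UB
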