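import Pool.Agent.KS6_60.UB.Core

/-! Unit ball graphs in Euclidean, hyperbolic and spherical spaces. -/

namespace Pool.Agent.KS6_60.UB

open Pool.Agent.KS6_60.Lib.CX Pool.Agent.KS6_60.Lib.ER Pool.Agent.KS6_60.Lib.SG Filter Topology Module

set_option synthInstance.maxSize 4000

/-- the Minkowski form on `ℝ × ℝ^d` -/
def mink {d : ℕ} (x y : ℝ × (Fin d → ℝ)) : ℝ := x.1 * y.1 - ∑ i, x.2 i * y.2 i

/-- hyperbolic `d`-space: the upper sheet of the hyperboloid -/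
def Hyp (d : ℕ) : Type := {x : ℝ × (Fin d → ℝ) // mink x x = 1 ∧ 0 < x.1}

/-- the hyperbolic metric of curvature `-1` -/
noncomputable def hdist {d : ℕ} (x y : Hyp d) : ℝ := Real.arcosh (mink x.1 y.1)

/-- the `d`-dimensional unit sphere -/
def Sph (d : ℕ) : Type := {x : EuclideanSpace ℝ (Fin (d + 1)) // ‖x‖ = 1}

/-- the angular metric (of curvature `1`) on the sphere -/
noncomputable def sdist {d : ℕ} (x y : Sph d) : ℝ := InnerProductGeometry.angle x.1 y.1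

/-- the Euclidean metric -/
noncomputable def edist' {d : ℕ} (x y : EuclideanSpace ℝ (Fin d)) : ℝ := dist x y

/-- `a` is the intersection graph of balls of radius `r` in the space `X` with the metric `δ`: two
balls intersect when their centres have distance at most `2 * r` -/
def UnitBall {X : Type} (δ : X → X → ℝ) (r : ℝ) (a : Gr) : Prop :=
  ∃ c : Fin a.n → X, ∀ u v, u ≠ v → (a.G.Adj u v ↔ δ (c u) (c v) ≤ 2 * r)

section models
variable {d : ℕ}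

def mk (x y : Pt d) : ℝ := x.1 * y.1 - x.2 ⬝ᵥ y.2

theorem mink_pos : ∀ x y : Hyp d, 0 < mink x.1 y.1 := fun ⟨x, a, b⟩ ⟨y, c, e⟩ => by
  have := Finset.sum_mul_sq_le_sq_mul_sq Finset.univ x.2 y.2
  have p1 : 0 ≤ ∑ i, x.2 i * x.2 i := Finset.sum_nonneg fun _ _ => mul_self_nonneg _
  have p2 : 0 ≤ ∑ i, y.2 i * y.2 i := Finset.sum_nonneg fun _ _ => mul_self_nonneg _
  simp only [mink, sq] at *
  refine sub_pos.2 (lt_of_mul_self_lt_mul_self₀ (mul_pos b e).le ?_)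
  rw [mul_mul_mul_comm, sub_eq_iff_eq_add.1 a, sub_eq_iff_eq_add.1 c]
  nlinarith

theorem hyp_iff {r : ℝ} (hr : 0 < r) (a : Gr) : UnitBall (hdist (d := d)) r a ↔
    Rep (fun x : Pt d => mk x x = 1 ∧ 0 < x.1) (fun x y => mk x y ≤ Real.cosh (2 * r)) a := by
  have k : ∀ x y : Hyp d, hdist x y ≤ 2 * r ↔ mk x.1 y.1 ≤ Real.cosh (2 * r) := fun x y => by
    have e : mink x.1 y.1 = mk x.1 y.1 := rfl
    rw [← e, ← Real.arcosh_le_arcosh (mink_pos x y) (Real.cosh_pos _), Real.arcosh_cosh (by linarith), hdist]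
  exact ⟨fun ⟨c, h⟩ => ⟨fun u => (c u).1, fun u => (c u).2, fun u v t => (h u v t).trans (k _ _)⟩,
    fun ⟨c, h, h'⟩ => ⟨fun u => ⟨c u, h u⟩, fun u v t => (h' u v t).trans (k ⟨c u, h u⟩ ⟨c v, h v⟩).symm⟩⟩

/-- the point of `ℝ^{d+1}` with the given coordinates -/
noncomputable def toE (x : Pt d) : EuclideanSpace ℝ (Fin (d + 1)) := WithLp.toLp 2 (Fin.cons x.1 x.2)

noncomputable def ofE (x : EuclideanSpace ℝ (Fin (d + 1))) : Pt d := (x 0, fun i => x i.succ)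

theorem toE_ofE (x : EuclideanSpace ℝ (Fin (d + 1))) : toE (ofE x) = x := by
  ext i
  refine Fin.cases ?_ (fun i => ?_) i <;> simp [toE, ofE]

theorem inner_toE (x y : Pt d) : inner ℝ (toE x) (toE y) = x.1 * y.1 + x.2 ⬝ᵥ y.2 := by
  simp [toE, PiLp.inner_apply, Fin.sum_univ_succ, dotProduct, mul_comm]

theorem norm_toE (x : Pt d) : ‖toE x‖ ^ 2 = x.1 * x.1 + x.2 ⬝ᵥ x.2 := by
  rw [← real_inner_self_eq_norm_sq, inner_toE]

theorem dist_toE (x y : Pt d) : dist (toE x) (toE y) ^ 2 =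
    x.1 * x.1 + x.2 ⬝ᵥ x.2 + (y.1 * y.1 + y.2 ⬝ᵥ y.2) - 2 * (x.1 * y.1 + x.2 ⬝ᵥ y.2) := by
  rw [dist_eq_norm, @norm_sub_sq ℝ, norm_toE, norm_toE]
  simp only [RCLike.re_to_real, inner_toE]
  ring

theorem sph_iff {r : ℝ} (hr : 0 < r) (hr' : r < Real.pi / 2) (a : Gr) : UnitBall (sdist (d := d)) r a ↔
    Rep (fun x : Pt d => x.1 * x.1 + x.2 ⬝ᵥ x.2 = 1) (fun x y => Real.cos (2 * r) ≤ x.1 * y.1 + x.2 ⬝ᵥ y.2) a := by
  have k : ∀ x y : Pt d, ‖toE x‖ = 1 → ‖toE y‖ = 1 → (InnerProductGeometry.angle (toE x) (toE y) ≤ 2 * r ↔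
      Real.cos (2 * r) ≤ x.1 * y.1 + x.2 ⬝ᵥ y.2) := fun x y h1 h2 => by
    rw [← inner_toE, InnerProductGeometry.inner_eq_cos_angle_of_norm_eq_one h1 h2,
      Real.strictAntiOn_cos.le_iff_ge ⟨by linarith, by linarith⟩
        ⟨InnerProductGeometry.angle_nonneg _ _, InnerProductGeometry.angle_le_pi _ _⟩]
  have e : ∀ x : Pt d, ‖toE x‖ = 1 ↔ x.1 * x.1 + x.2 ⬝ᵥ x.2 = 1 := fun x => by
    rw [← norm_toE, pow_eq_one_iff_of_nonneg (norm_nonneg _) two_ne_zero]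
  exact ⟨fun ⟨c, h⟩ => ⟨fun u => ofE (c u).1, fun u => (e _).1 (by rw [toE_ofE]; exact (c u).2), fun u v t =>
      (h u v t).trans (by
        have := k (ofE (c u).1) (ofE (c v).1) (by rw [toE_ofE]; exact (c u).2) (by rw [toE_ofE]; exact (c v).2)
        rwa [toE_ofE, toE_ofE] at this)⟩,
    fun ⟨c, h, h'⟩ => ⟨fun u => ⟨toE (c u), (e _).2 (h u)⟩, fun u v t => (h' u v t).trans
      (k (c u) (c v) ((e _).2 (h u)) ((e _).2 (h v))).symm⟩⟩

theorem euc_iff {r : ℝ} (hr : 0 < r) (a : Gr) : UnitBall (edist' (d := d + 1)) r a ↔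
    Rep (fun _ : Pt d => True) (fun x y => x.1 * x.1 + x.2 ⬝ᵥ x.2 + (y.1 * y.1 + y.2 ⬝ᵥ y.2) -
      2 * (x.1 * y.1 + x.2 ⬝ᵥ y.2) ≤ (2 * r) ^ 2) a := by
  have k : ∀ x y : Pt d, dist (toE x) (toE y) ≤ 2 * r ↔ x.1 * x.1 + x.2 ⬝ᵥ x.2 + (y.1 * y.1 + y.2 ⬝ᵥ y.2) -
      2 * (x.1 * y.1 + x.2 ⬝ᵥ y.2) ≤ (2 * r) ^ 2 := fun x y => by
    rw [← dist_toE, sq_le_sq₀ dist_nonneg (by linarith)]
  exact ⟨fun ⟨c, h⟩ => ⟨fun u => ofE (c u), fun _ => trivial, fun u v t =>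
      (h u v t).trans (by have := k (ofE (c u)) (ofE (c v)); rwa [toE_ofE, toE_ofE] at this)⟩,
    fun ⟨c, _, h'⟩ => ⟨fun u => toE (c u), fun u v t => (h' u v t).trans (k (c u) (c v)).symm⟩⟩

end models

section hard
variable {N : Type} [DecidableEq N] {m : ℕ}

theorem S.ne {b x} (h : S b x) : x ≠ 0 := by
  by_cases q : b
  exacts [(h.1 q).ne', (h.2 q).ne]

theorem complete_euc {r : ℝ} (hr : 0 < r) (I : Inst N) (h : NF m I) :
    UnitBall (edist' (d := m + 1)) r (gr (vs I) (UB.r I)) := by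
  obtain ⟨c, -, h⟩ := complete (κ := 0) (t := (2 * r) ^ 2) (by positivity) (by norm_num) I h
  refine (euc_iff hr _).2 ((rep_iff (fun x y h => by
    rw [dotProduct_comm y.2 x.2, mul_comm y.1 x.1]; linarith) I).2 ⟨c, fun _ _ => trivial, fun u hu v hv q _ => ?_⟩)
  have k := h u hu v hv q
  rw [k.iff, lt_iff_le_and_ne, and_iff_left (Ne.symm (S.ne k)), F]
  simp [sub_nonneg]

theorem complete_hyp {r : ℝ} (hr : 0 < r) (I : Inst N) (h : NF m I) :
    UnitBall (hdist (d := m + 1)) r (gr (vs I) (UB.r I)) := by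
  have ht : 0 < Real.sinh r ^ 2 := by have := Real.sinh_pos_iff.2 hr; positivity
  obtain ⟨c, h0, h⟩ := complete (κ := -1) (t := Real.sinh r ^ 2) ht (by linarith) I h
  have dc : ∀ (s t : ℝ) (v w : Fin m → ℝ), (Fin.cons s v : Fin (m + 1) → ℝ) ⬝ᵥ Fin.cons t w = s * t + v ⬝ᵥ w :=
    fun s t v w => by simp [dotProduct, Fin.sum_univ_succ]
  have hc : Real.cosh (2 * r) = 1 + 2 * Real.sinh r ^ 2 := by rw [Real.cosh_two_mul, Real.cosh_sq]; ring
  refine (hyp_iff hr _).2 ((rep_iff (fun x y h => by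
    simp only [mk] at *; rwa [dotProduct_comm y.2 x.2, mul_comm y.1 x.1]) I).2
    ⟨fun u => (1 - ((c u).1 * (c u).1 + (c u).2 ⬝ᵥ (c u).2))⁻¹ •
      (1 + ((c u).1 * (c u).1 + (c u).2 ⬝ᵥ (c u).2), (2 : ℝ) • Fin.cons (c u).1 (c u).2), fun u hu => ?_,
    fun u hu v hv q _ => ?_⟩)
  · have := h0 u hu
    have p : 0 ≤ (c u).2 ⬝ᵥ (c u).2 := Finset.sum_nonneg fun _ _ => mul_self_nonneg _
    have this' : 0 < 1 - ((c u).1 * (c u).1 + (c u).2 ⬝ᵥ (c u).2) := by linarith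
    simp only [mk, Prod.smul_mk, smul_dotProduct, dotProduct_smul, smul_eq_mul, dc]
    refine ⟨?_, mul_pos (inv_pos.2 this') (by nlinarith)⟩
    generalize (c u).1 * (c u).1 + (c u).2 ⬝ᵥ (c u).2 = U at *
    field_simp
    ring
  · have k := h u hu v hv q
    have a1 := h0 u hu
    have a2 := h0 v hv
    rw [k.iff, lt_iff_le_and_ne, and_iff_left (Ne.symm (S.ne k)), F, hc]
    simp only [mk, Prod.smul_mk, smul_dotProduct, dotProduct_smul, smul_eq_mul, dc]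
    generalize (c u).1 * (c u).1 + (c u).2 ⬝ᵥ (c u).2 = U, (c v).1 * (c v).1 + (c v).2 ⬝ᵥ (c v).2 = V,
      (c u).1 * (c v).1 + (c u).2 ⬝ᵥ (c v).2 = D, Real.sinh r ^ 2 = t at *
    have b1 : 0 < 1 - U := by linarith
    have b2 : 0 < 1 - V := by linarith
    rw [← sub_nonneg (a := 1 + 2 * t), ← mul_nonneg_iff_of_pos_left (mul_pos b1 b2) (b := 1 + 2 * t - _),
      ← mul_nonneg_iff_of_pos_left (two_pos (α := ℝ)) (b := t * _ * _ - _)]
    refine iff_of_eq (congrArg _ ?_)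
    field_simp
    ring

theorem complete_sph {r : ℝ} (hr : 0 < r) (hr' : r < Real.pi / 3) (I : Inst N) (h : NF m I) :
    UnitBall (sdist (d := m + 1)) r (gr (vs I) (UB.r I)) := by
  have pi0 := Real.pi_pos
  have hs : 0 < Real.sin r := Real.sin_pos_of_pos_of_lt_pi hr (by linarith)
  have ht : 0 < Real.sin r ^ 2 := by positivity
  have hcs : 1 / 2 < Real.cos r := by
    rw [← Real.cos_pi_div_three]
    exact Real.strictAntiOn_cos ⟨hr.le, by linarith⟩ ⟨by linarith, by linarith⟩ hr'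
  have hw : 1 / 4 < 1 - 1 * Real.sin r ^ 2 := by
    have := Real.sin_sq_add_cos_sq r
    nlinarith
  obtain ⟨c, h0, h⟩ := complete (κ := 1) (t := Real.sin r ^ 2) ht hw I h
  have dc : ∀ (s t : ℝ) (v w : Fin m → ℝ), (Fin.cons s v : Fin (m + 1) → ℝ) ⬝ᵥ Fin.cons t w = s * t + v ⬝ᵥ w :=
    fun s t v w => by simp [dotProduct, Fin.sum_univ_succ]
  have hc : Real.cos (2 * r) = 1 - 2 * Real.sin r ^ 2 := by rw [Real.cos_two_mul, Real.cos_sq']; ring
  refine (sph_iff hr (by linarith) _).2 ((rep_iff (fun x y h => by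
    rwa [dotProduct_comm y.2 x.2, mul_comm y.1 x.1]) I).2
    ⟨fun u => (1 + ((c u).1 * (c u).1 + (c u).2 ⬝ᵥ (c u).2))⁻¹ •
      (1 - ((c u).1 * (c u).1 + (c u).2 ⬝ᵥ (c u).2), (2 : ℝ) • Fin.cons (c u).1 (c u).2), fun u hu => ?_,
    fun u hu v hv q _ => ?_⟩)
  · have := h0 u hu
    have this' : 0 < 1 + ((c u).1 * (c u).1 + (c u).2 ⬝ᵥ (c u).2) := by linarith
    simp only [Prod.smul_mk, smul_dotProduct, dotProduct_smul, smul_eq_mul, dc]
    generalize (c u).1 * (c u).1 + (c u).2 ⬝ᵥ (c u).2 = U at *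
    field_simp
    ring
  · have k := h u hu v hv q
    have a1 := h0 u hu
    have a2 := h0 v hv
    rw [k.iff, lt_iff_le_and_ne, and_iff_left (Ne.symm (S.ne k)), F, hc]
    simp only [Prod.smul_mk, smul_dotProduct, dotProduct_smul, smul_eq_mul, dc]
    generalize (c u).1 * (c u).1 + (c u).2 ⬝ᵥ (c u).2 = U, (c v).1 * (c v).1 + (c v).2 ⬝ᵥ (c v).2 = V,
      (c u).1 * (c v).1 + (c u).2 ⬝ᵥ (c v).2 = D, Real.sin r ^ 2 = t at *
    have b1 : 0 < 1 + U := by linarith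
    have b2 : 0 < 1 + V := by linarith
    rw [← sub_nonneg (b := 1 - 2 * t), ← mul_nonneg_iff_of_pos_left (mul_pos b1 b2) (b := _ - (1 - 2 * t)),
      ← mul_nonneg_iff_of_pos_left (two_pos (α := ℝ)) (b := t * _ * _ - _)]
    refine iff_of_eq (congrArg _ ?_)
    field_simp
    ring

end hard

end Pool.Agent.KS6_60.UB
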